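import Pool.Agent.Y879.PR.Full
import Pool.Agent.R490.Single

set_option autoImplicit false

/-!
# Systems of polynomials given by their divisibility predicate: spacings, regular points, primes
-/

namespace Pool.Agent.R518.G

open Polynomial Finset Filter
open Pool.Agent.W123.RP Pool.Agent.H373R2.T7 Pool.Agent.W123.RU Pool.Agent.W123.RU.Poly
open Pool.Agent.TH464.PW Pool.Agent.TH464.PO Pool.Agent.Y879.GL Pool.Agent.Y879.PR
open Pool.Agent.R490.Sg (D1 pz_eq Vz_D1 RightOrder ConstantDensity badScales Irregular cnt)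

/-- no prime `p ≤ y` satisfies `g p m` -/
def Ro (g : ℕ → ℕ → Prop) (y m : ℕ) : Prop := ∀ p : ℕ, p.Prime → p ≤ y → ¬ g p m

open Classical in
/-- the density of the condition `Ro` -/
noncomputable def De (g : ℕ → ℕ → Prop) (y : ℕ) : ℝ := ∏ p ∈ (Finset.range (y + 1)).filter Nat.Prime,
    (1 - (((Finset.range p).filter (fun m : ℕ => g p m)).card : ℝ) / p)

/-- `g p m` means that `p` divides the value at `m` of some polynomial of the system -/
def Rep {k : ℕ} (F : Fin k → ℤ[X]) (g : ℕ → ℕ → Prop) : Prop := ∀ p m : ℕ, Q F p m ↔ g p m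

variable {k : ℕ} {F : Fin k → ℤ[X]} {g : ℕ → ℕ → Prop}

open Classical in
lemma rep_V (h : Rep F g) (y : ℕ) : Vq (Q F) y = De g y := by
  unfold Vq De
  rw [pz_eq]
  apply Finset.prod_congr rfl
  intro p _
  unfold nuB
  simp only [h p]

lemma rep_Sf (h : Rep F g) (y m : ℕ) : Sf (Q F) y m ↔ Ro g y m := by
  unfold Sf Ro
  constructor
  · intro h1 p hp hpy hd
    exact h1 p (mem_pz.2 ⟨hpy, hp⟩) ((h p m).2 hd)
  · intro h1 p hp hd
    exact h1 p (mem_pz.1 hp).2 (mem_pz.1 hp).1 ((h p m).1 hd)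

open Classical in
/-- the number of the `n` in `(u, u + Y]` with `Ro g y n` for which fewer than `l` of the `T` integers before
`n` have this property -/
noncomputable def Dk (g : ℕ → ℕ → Prop) (y l T u Y : ℕ) : ℕ :=
  ((Ioc u (u + Y)).filter (fun n => Ro g y n ∧ ((Ico (n - T) n).filter (fun m => Ro g y m)).card < l)).card

open Classical in
lemma Dk_eq (h : Rep F g) (y l T u Y : ℕ) : Pk (Sf (Q F) y) l T u Y = Dk g y l T u Y := by
  have e : Sf (Q F) y = fun m => Ro g y m := by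
    funext m
    exact propext (rep_Sf h y m)
  unfold Pk Dk
  rw [e]

lemma De_le_D1 (hb : ∀ p : ℕ, p.Prime → ∃ m < p, g p m) (y : ℕ) : De g y ≤ D1 y := by
  classical
  unfold De D1
  apply Finset.prod_le_prod
  · intro p hp
    have hpp : p.Prime := (mem_filter.1 hp).2
    have hp0 : (0 : ℝ) < p := by exact_mod_cast hpp.pos
    rw [sub_nonneg, div_le_one hp0]
    have h1 := Finset.card_filter_le (Finset.range p) (fun m : ℕ => g p m)
    rw [card_range] at h1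
    exact_mod_cast h1
  · intro p hp
    have hpp : p.Prime := (mem_filter.1 hp).2
    have hp0 : (0 : ℝ) < p := by exact_mod_cast hpp.pos
    have h1 : 1 ≤ ((Finset.range p).filter (fun m : ℕ => g p m)).card := by
      rw [Nat.one_le_iff_ne_zero, Finset.card_ne_zero]
      obtain ⟨m, hm, hg⟩ := hb p hpp
      exact ⟨m, mem_filter.2 ⟨mem_range.2 hm, hg⟩⟩
    have h2 : (1 : ℝ) ≤ (((Finset.range p).filter (fun m : ℕ => g p m)).card : ℝ) := by exact_mod_cast h1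
    have h3 : (1 : ℝ) / p ≤ (((Finset.range p).filter (fun m : ℕ => g p m)).card : ℝ) / p :=
      div_le_div_of_nonneg_right h2 hp0.le
    linarith

/-- the height bound -/
lemma hgt_up {D : ℕ} {A X : ℕ} {U : ℝ} (hX1 : 1 ≤ X) (h : US k D (((X : ℤ) ^ A : ℤ) : ℝ) U F) :
    US k D ((X : ℝ) ^ ((A : ℝ) + 1)) U F := by
  have hX : (1 : ℝ) ≤ X := by exact_mod_cast hX1
  refine ⟨h.irr, h.deg, h.degD, fun i n => (h.hgt i n).trans ?_, h.adm, h.tr⟩
  push_cast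
  rw [← Real.rpow_natCast]
  exact Real.rpow_le_rpow_of_exponent_le hX (by linarith)

lemma tr0 {D : ℕ} {H U : ℝ} (h : US k D H U F) : US k D H 0 F :=
  ⟨h.irr, h.deg, h.degD, h.hgt, h.adm, fun i j t ht ht0 => by
    have : (1 : ℝ) ≤ t := by exact_mod_cast ht
    linarith⟩

open Classical in
/-- **The spacing laws.** -/
theorem gapG (k D A : ℕ) (δ' θ : ℝ) (hδ' : 0 < δ') (hθ : 0 < θ) (k0 : ℕ) (x0 ε : ℝ) (hε : 0 < ε) :
    ∃ r0 : ℕ, ∀ r : ℕ, r0 ≤ r → ∀ B : ℝ, ∀ᶠ X : ℕ in atTop, ∀ (F : Fin k → ℤ[X]) (g : ℕ → ℕ → Prop),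
      US k D (((X : ℤ) ^ A : ℤ) : ℝ) ((X : ℝ) ^ δ') F → Rep F g →
      ∀ y : ℕ, y = ⌊(X : ℝ) ^ (1 / (r : ℝ))⌋₊ → De g y ≤ B * D1 y →
      ∀ u Y : ℕ, (X : ℝ) ^ θ ≤ Y → ∀ l T : ℕ, (l ≤ k0 ∨ T * De g y ≤ x0) →
        |(Dk g y l T u Y : ℝ) - Y * De g y *
          ∑ j ∈ range l, Real.exp (-(T * De g y)) * (T * De g y) ^ j / j.factorial| ≤
          ε * (Y * De g y) := by
  obtain ⟨r0, h0⟩ := gap_polys k D ((A : ℝ) + 1) δ' θ (by positivity) hδ' hθ k0 x0 ε hε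
  refine ⟨max r0 2, ?_⟩
  intro r hr B
  have hr2 : 2 ≤ r := (le_max_right _ _).trans hr
  obtain ⟨C, hC, hVz⟩ := Vz_up r hr2
  filter_upwards [h0 r ((le_max_left _ _).trans hr) (|B| * C), hVz, eventually_ge_atTop 1] with X h1 h2 h3
  intro F g hF hR y hy hV u Y hY l T hT
  rw [← hy] at h1 h2
  have e1 := rep_V hR y
  have h4 := h1 F (hgt_up h3 hF) (by
    rw [e1]
    refine hV.trans ?_
    rw [← Vz_D1]
    calc B * Vz y ≤ |B| * Vz y := mul_le_mul_of_nonneg_right (le_abs_self B) h2.1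
      _ ≤ |B| * (C / Real.log X) := mul_le_mul_of_nonneg_left h2.2 (abs_nonneg B)
      _ = |B| * C / Real.log X := by ring) u Y hY l T (by rw [e1]; exact hT)
  rw [Dk_eq hR, e1] at h4
  exact h4

open Classical in
/-- **Regular points.** -/
theorem regG (k D A e : ℕ) (δ' θ : ℝ) (hδ' : 0 < δ') (hθ : 0 < θ) :
    ∃ r0 : ℕ, 2 ≤ r0 ∧ ∀ r : ℕ, r0 ≤ r → ∀ B ε : ℝ, 0 < B → 0 < ε → ∃ c : ℝ, 0 < c ∧
      ∀ δ : ℝ, 0 < δ → ∃ M : ℕ, ∀ᶠ X : ℕ in atTop, ∀ (F : Fin k → ℤ[X]) (g : ℕ → ℕ → Prop),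
      US k D (((X : ℤ) ^ A : ℤ) : ℝ) 0 F → Rep F g →
      ∀ E0 : Finset ℕ, E0.card ≤ e → NoAs F E0 ((X : ℝ) ^ δ') →
      ∀ y : ℕ, y = ⌊(X : ℝ) ^ (1 / (r : ℝ))⌋₊ → De g y ≤ B * D1 y →
      ∀ u Y : ℕ, (X : ℝ) ^ θ ≤ Y → Y ≤ X → Y ≤ u → ∀ S : Set ℕ, (∀ m ∈ S, Ro g y m) →
        (cnt (Irregular S (1 / De g y) c δ M Y) u (u + Y) : ℝ) ≤ ε * (Y * De g y) := by
  obtain ⟨r0, hr0, h0⟩ := hered_polys k D e ((A : ℝ) + 1) δ' θ (by positivity) hδ' hθ
  refine ⟨r0, hr0, ?_⟩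
  intro r hr B ε hB hε
  obtain ⟨C, hC, hVz⟩ := Vz_up r (hr0.trans hr)
  obtain ⟨cc, hcc, h1⟩ := h0 r hr (B * C) (by positivity) ε hε
  refine ⟨cc, hcc, ?_⟩
  intro δ hδ
  obtain ⟨M, h2⟩ := h1 δ hδ
  refine ⟨M, ?_⟩
  filter_upwards [h2, hVz, eventually_ge_atTop 1] with X h3 h4 h5
  intro F g hF hR E0 hE0 hNo y hy hV u Y hY hYX hYu S hS
  rw [← hy] at h3 h4
  have e1 := rep_V hR y
  have h6 := h3 F (hgt_up h5 hF) E0 hE0 hNo (by
    rw [e1]
    refine hV.trans ?_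
    rw [← Vz_D1]
    calc B * Vz y ≤ B * (C / Real.log X) := mul_le_mul_of_nonneg_left h4.2 hB.le
      _ = B * C / Real.log X := by ring) u Y hY hYX hYu S (fun m hm => (rep_Sf hR y m).2 (hS m hm))
  rw [e1] at h6
  exact h6

/-! ## Prime arguments -/

open Classical in
/-- the density relative to the primes -/
noncomputable def Wr (g : ℕ → ℕ → Prop) (y : ℕ) : ℝ := ∏ p ∈ (Finset.range (y + 1)).filter Nat.Prime,
    (1 - (((Finset.range p).filter (fun m : ℕ => g p m)).card : ℝ) / p) / (1 - 1 / (p : ℝ))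

lemma W_eq (g : ℕ → ℕ → Prop) (y : ℕ) : De g y / D1 y = Wr g y := by
  unfold De D1 Wr
  rw [← Finset.prod_div_distrib]

open Classical in
/-- the `n` in `(u, u + Y]` with `a n + b` prime and `Ro g y n` -/
noncomputable def Pr (a b : ℕ) (g : ℕ → ℕ → Prop) (y u Y : ℕ) : Finset ℕ :=
  (Ioc u (u + Y)).filter (fun n => (a * n + b).Prime ∧ Ro g y n)

open Classical in
/-- the number of the `m` in `(n, n + T]` with `Ro g y m` -/
noncomputable def Nx (g : ℕ → ℕ → Prop) (y T n : ℕ) : ℕ := ((Ioc n (n + T)).filter (fun m => Ro g y m)).card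

lemma De_le_a (a b : ℕ) (ha : 1 ≤ a) (hb : ∀ p m : ℕ, p.Prime → p ∣ a * m + b → g p m) (y : ℕ) :
    De g y ≤ 2 ^ a * D1 y := by
  classical
  have h0 : De g y ≤ ∏ p ∈ (Finset.range (y + 1)).filter Nat.Prime,
      ((if p ∣ a then 2 else 1) * (1 - 1 / (p : ℝ))) := by
    unfold De
    apply Finset.prod_le_prod
    · intro p hp
      have hpp : p.Prime := (mem_filter.1 hp).2
      have hp0 : (0 : ℝ) < p := by exact_mod_cast hpp.pos
      rw [sub_nonneg, div_le_one hp0]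
      have h1 := Finset.card_filter_le (Finset.range p) (fun m : ℕ => g p m)
      rw [card_range] at h1
      exact_mod_cast h1
    · intro p hp
      have hpp : p.Prime := (mem_filter.1 hp).2
      have hp0 : (0 : ℝ) < p := by exact_mod_cast hpp.pos
      have hp2 : (2 : ℝ) ≤ p := by exact_mod_cast hpp.two_le
      split_ifs with hpa
      · have h1 : (0 : ℝ) ≤ (((Finset.range p).filter (fun m : ℕ => g p m)).card : ℝ) / p := by positivity
        have h2 : (1 : ℝ) / p ≤ 1 / 2 := one_div_le_one_div_of_le (by norm_num) hp2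
        linarith
      · have hroot : ∃ m < p, p ∣ a * m + b := by
          have : Fact p.Prime := ⟨hpp⟩
          have ha0 : (a : ZMod p) ≠ 0 := by
            intro h
            exact hpa ((ZMod.natCast_eq_zero_iff a p).1 h)
          refine ⟨(-(b : ZMod p) / (a : ZMod p)).val, ZMod.val_lt _, ?_⟩
          rw [← ZMod.natCast_eq_zero_iff]
          push_cast
          rw [ZMod.natCast_zmod_val, mul_div_cancel₀ _ ha0]
          ring
        obtain ⟨m, hm, hd⟩ := hroot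
        have h1 : 1 ≤ ((Finset.range p).filter (fun m : ℕ => g p m)).card := by
          rw [Nat.one_le_iff_ne_zero, Finset.card_ne_zero]
          exact ⟨m, mem_filter.2 ⟨mem_range.2 hm, hb p m hpp hd⟩⟩
        have h2 : (1 : ℝ) ≤ (((Finset.range p).filter (fun m : ℕ => g p m)).card : ℝ) := by exact_mod_cast h1
        have h3 : (1 : ℝ) / p ≤ (((Finset.range p).filter (fun m : ℕ => g p m)).card : ℝ) / p :=
          div_le_div_of_nonneg_right h2 hp0.le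
        linarith
  refine h0.trans ?_
  rw [Finset.prod_mul_distrib]
  unfold D1
  apply mul_le_mul_of_nonneg_right
  · rw [Finset.prod_ite, Finset.prod_const, Finset.prod_const_one, mul_one]
    apply pow_le_pow_right₀ (by norm_num)
    have h1 : (((Finset.range (y + 1)).filter Nat.Prime).filter (fun p => p ∣ a)) ⊆ Finset.Icc 1 a := by
      intro p hp
      rw [mem_filter, mem_filter] at hp
      rw [mem_Icc]
      exact ⟨hp.1.2.one_lt.le, Nat.le_of_dvd (by omega) hp.2⟩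
    calc _ ≤ (Finset.Icc 1 a).card := Finset.card_le_card h1
      _ = a := by simp
  · apply Finset.prod_nonneg
    intro p hp
    have hpp : p.Prime := (mem_filter.1 hp).2
    have hp2 : (2 : ℝ) ≤ p := by exact_mod_cast hpp.two_le
    have h2 : (1 : ℝ) / p ≤ 1 / 2 := one_div_le_one_div_of_le (by norm_num) hp2
    linarith

open Classical in
/-- **Rough values at primes of an arithmetic progression.** -/
theorem primeG (a k D A : ℕ) (ha : Squarefree a) (δ' θ δ : ℝ) (hδ' : 0 < δ') (hθ : 0 < θ)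
    (hδ : 0 < δ) (hδ1 : δ ≤ 1) (x0 ε : ℝ) (hε : 0 < ε) (hε1 : ε ≤ 1) :
    ∃ r0 : ℕ, 2 ≤ r0 ∧ ∀ r : ℕ, r0 ≤ r → ∀ᶠ N : ℕ in atTop, ∀ (F : Fin k → ℤ[X]) (g : ℕ → ℕ → Prop)
      (b : ℕ), US k D (((N : ℤ) ^ A : ℤ) : ℝ) ((N : ℝ) ^ δ') F → Rep F g → Nat.Coprime a b →
      (∀ p n : ℕ, p.Prime → p ∣ a → ¬ g p n) → (∃ i, ∀ n : ℕ, (F i).eval (n : ℤ) = a * n + b) →
      (b : ℝ) ≤ (N : ℝ) ^ (θ / 4) → ∀ y : ℕ, y = ⌊(N : ℝ) ^ (1 / (r : ℝ))⌋₊ →
      0 < Wr g y ∧ ∀ X : ℕ, (N : ℝ) ^ θ ≤ X → ∀ u Y : ℕ, δ * X ≤ Y → u + Y ≤ X →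
      |((Pr a b g y u Y).card : ℝ) * Real.log X - Y * Wr g y| ≤ ε * (Y * Wr g y) ∧
      ∀ T : ℕ, T * De g y ≤ x0 → ∀ J : Finset ℕ,
      |(((Pr a b g y u Y).filter (fun n => Nx g y T n ∈ J)).card : ℝ) - (Pr a b g y u Y).card *
          ∑ j ∈ J, Real.exp (-(T * De g y)) * (T * De g y) ^ j / j.factorial| ≤
        ε * (Pr a b g y u Y).card := by
  obtain ⟨r0, hr0, h0⟩ := prime_full a k D ha ((A : ℝ) + 1) δ' θ δ (by positivity) hδ'
    hθ hδ hδ1 x0 ε hε hε1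
  refine ⟨r0, hr0, ?_⟩
  intro r hr
  obtain ⟨C, hC, hVz⟩ := Vz_up r (hr0.trans hr)
  filter_upwards [h0 r hr (2 ^ a * C), hVz, eventually_ge_atTop 1] with N h1 h2 h3
  intro F g b hF hR hab hna hbase hbN y hy
  rw [← hy] at h1 h2
  have e1 := rep_V hR y
  have hus := hgt_up h3 hF
  have hWpos : 0 < Wr g y := by
    rw [← W_eq, ← e1, ← Vz_D1]
    apply div_pos
    · exact Vq_pos _ (fun p hp => us_adm hus p hp) y
    · exact Pool.Agent.Y879.PR.Vz_pos y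
  refine ⟨hWpos, ?_⟩
  intro X hX u Y hY huY
  have ha1 : 1 ≤ a := Nat.one_le_iff_ne_zero.2 ha.ne_zero
  have h4 := h1 F b hus hab (fun p n hp hpa hQ => hna p n hp hpa ((hR p n).1 hQ)) hbase (by
    rw [e1]
    refine (De_le_a a b ha1 (fun p m hp hd => (hR p m).1 (by
      obtain ⟨i, hi⟩ := hbase
      refine ⟨i, ?_⟩
      rw [hi]
      exact_mod_cast hd)) y).trans ?_
    rw [← Vz_D1, mul_div_assoc]
    exact mul_le_mul_of_nonneg_left h2.2 (by positivity)) hbN X hX u Y hY huY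
  rw [e1, Vz_D1, W_eq] at h4
  have eOm : Om a b (Q F) y u Y = Pr a b g y u Y := by
    unfold Om Pr
    apply Finset.filter_congr
    intro n _
    rw [rep_Sf hR]
  rw [eOm] at h4
  refine ⟨h4.1, ?_⟩
  intro T hT J
  have h5 := h4.2 T hT J
  have eW : ∀ n, Wc (Sf (Q F) y) n T = Nx g y T n := by
    intro n
    unfold Wc Nx
    congr 1
    apply Finset.filter_congr
    intro m _
    exact rep_Sf hR y m
  simp only [eW] at h5
  exact h5

lemma Rep.congr {g' : ℕ → ℕ → Prop} (h : Rep F g) (hg : ∀ p m, g p m ↔ g' p m) : Rep F g' :=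
  fun p m => (h p m).trans (hg p m)

open Classical in
/-- the primes `n` in `(u, u + Y]` with `Ro g y n` -/
noncomputable def Pr1 (g : ℕ → ℕ → Prop) (y u Y : ℕ) : Finset ℕ :=
  (Ioc u (u + Y)).filter (fun n => n.Prime ∧ Ro g y n)

open Classical in
lemma Pr_eq (g : ℕ → ℕ → Prop) (y u Y : ℕ) : Pr 1 0 g y u Y = Pr1 g y u Y := by
  unfold Pr Pr1
  apply Finset.filter_congr
  intro n _
  rw [one_mul, add_zero]

open Classical in
/-- **Rough values at primes.** -/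
theorem primeG1 (k D A : ℕ) (δ' θ δ : ℝ) (hδ' : 0 < δ') (hθ : 0 < θ)
    (hδ : 0 < δ) (hδ1 : δ ≤ 1) (x0 ε : ℝ) (hε : 0 < ε) (hε1 : ε ≤ 1) :
    ∃ r0 : ℕ, 2 ≤ r0 ∧ ∀ r : ℕ, r0 ≤ r → ∀ᶠ N : ℕ in atTop, ∀ (F : Fin k → ℤ[X]) (g : ℕ → ℕ → Prop),
      US k D (((N : ℤ) ^ A : ℤ) : ℝ) ((N : ℝ) ^ δ') F → Rep F g →
      (∃ i, ∀ n : ℕ, (F i).eval (n : ℤ) = n) →
      ∀ y : ℕ, y = ⌊(N : ℝ) ^ (1 / (r : ℝ))⌋₊ →
      0 < Wr g y ∧ ∀ X : ℕ, (N : ℝ) ^ θ ≤ X → ∀ u Y : ℕ, δ * X ≤ Y → u + Y ≤ X →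
      |((Pr1 g y u Y).card : ℝ) * Real.log X - Y * Wr g y| ≤ ε * (Y * Wr g y) ∧
      ∀ T : ℕ, T * De g y ≤ x0 → ∀ J : Finset ℕ,
      |(((Pr1 g y u Y).filter (fun n => Nx g y T n ∈ J)).card : ℝ) - (Pr1 g y u Y).card *
          ∑ j ∈ J, Real.exp (-(T * De g y)) * (T * De g y) ^ j / j.factorial| ≤
        ε * (Pr1 g y u Y).card := by
  obtain ⟨r0, hr0, h0⟩ := primeG 1 k D A squarefree_one δ' θ δ hδ' hθ hδ hδ1 x0 ε hε hε1
  refine ⟨r0, hr0, fun r hr => ?_⟩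
  filter_upwards [h0 r hr] with N hN
  intro F g hF hR hbase y hy
  have h := hN F g 0 hF hR (Nat.coprime_one_left 0)
    (fun p n hp hp1 => absurd (Nat.dvd_one.1 hp1) hp.one_lt.ne')
    (by
      obtain ⟨i, hi⟩ := hbase
      refine ⟨i, fun n => ?_⟩
      rw [hi n]
      push_cast
      ring) (by push_cast; positivity) y hy
  refine ⟨h.1, fun X hX u Y hY huY => ?_⟩
  have h2 := h.2 X hX u Y hY huY
  rw [Pr_eq] at h2
  exact h2

end Pool.Agent.R518.G
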