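import Pool.Agent.R490.Tq
import Pool.Agent.H141R2.FS.Main1

set_option autoImplicit false

/-!
# Four squares with a prescribed value of `x + 2 y + 5 z`, and the pattern `0, 2, 6, 12` in progressions
-/

namespace Pool.Agent.R518.FS4

open Finset Filter
open Pool.Agent.R490

lemma adm4 (p : ℕ) (hp : p.Prime) : ∃ m : ℕ, ∀ h ∈ ({0, 2, 6, 12} : Finset ℕ), ¬ p ∣ m + h := by
  by_cases h3 : p ≤ 13
  · refine ⟨17, ?_⟩
    have := hp.two_le
    interval_cases p <;> first | decide | exact absurd hp (by norm_num)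
  · refine ⟨1, fun h hh hd => ?_⟩
    simp only [Finset.mem_insert, Finset.mem_singleton] at hh
    have := Nat.le_of_dvd (by omega) hd
    omega

lemma card4 : ({0, 2, 6, 12} : Finset ℕ).card = 4 := by decide

lemma le4 {X : ℕ} (hX : 12 ≤ X) : ∀ h ∈ ({0, 2, 6, 12} : Finset ℕ), h ≤ X ^ 1 := by
  intro h hh
  simp only [Finset.mem_insert, Finset.mem_singleton] at hh
  rw [pow_one]
  omega

lemma dif4 {q : ℕ} (hq : 30 ∣ q) : ∀ h ∈ ({0, 2, 6, 12} : Finset ℕ), ∀ h' ∈ ({0, 2, 6, 12} : Finset ℕ),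
    h' < h → ¬ q ∣ h - h' := by
  intro h hh h' hh' hlt hd
  have h1 : 30 ∣ h - h' := hq.trans hd
  have h2 := Nat.le_of_dvd (by omega) h1
  simp only [Finset.mem_insert, Finset.mem_singleton] at hh hh'
  omega

lemma nu4 {q p : ℕ} (hp : p.Prime) (hq : 30 ∣ q) : Tq.nu {0, 2, 6, 12} q p = if p ∣ q then 0 else 4 := by
  unfold Tq.nu
  split_ifs with h
  · rfl
  · have h30 : ¬ p ∣ 30 := fun hd => h (hd.trans hq)
    by_cases h13 : 13 ≤ p
    · rw [Finset.card_image_of_injOn, card4]
      intro x hx y hy hxy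
      have hxy' : x % p = y % p := hxy
      simp only [Finset.coe_insert, Finset.coe_singleton, Set.mem_insert_iff, Set.mem_singleton_iff] at hx hy
      rwa [Nat.mod_eq_of_lt (by omega), Nat.mod_eq_of_lt (by omega)] at hxy'
    · have h13' : p < 13 := by omega
      have := hp.two_le
      interval_cases p
      · exact absurd (by norm_num) h30
      · exact absurd (by norm_num) h30
      · exact absurd hp (by norm_num)
      · exact absurd (by norm_num) h30
      · exact absurd hp (by norm_num)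
      · decide
      · exact absurd hp (by norm_num)
      · exact absurd hp (by norm_num)
      · exact absurd hp (by norm_num)
      · decide
      · exact absurd hp (by norm_num)

/-- `p` is the value of `x + 2 y + 5 z` at a representation of `n` as a sum of four squares -/
def Val (n p : ℕ) : Prop := ∃ x y z w : ℕ, n = x ^ 2 + y ^ 2 + z ^ 2 + w ^ 2 ∧ p = x + 2 * y + 5 * z

lemma val_of {n q a m : ℕ} (h4 : ¬ 4 ∣ n) (hq : 30 ∣ q) (hc : Nat.Coprime q (a + 2))
    (h1 : 29 * n ≤ (q * m + a + 2) ^ 2) (h2 : (q * m + a + 2) ^ 2 ≤ 30 * n) : Val n (q * m + a + 2) := by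
  have hco : Nat.Coprime (q * m + a + 2) 30 := by
    obtain ⟨t, rfl⟩ := hq
    have h3 : Nat.Coprime 30 (a + 2) := Nat.Coprime.coprime_dvd_left (dvd_mul_right 30 t) hc
    have h4 : 30 * t * m + a + 2 = 30 * (t * m) + (a + 2) := by ring
    rw [h4]
    exact ((Nat.coprime_mul_left_add_right _ _ _).2 h3).symm
  obtain ⟨x, y, z, w, h3, h5⟩ := Pool.Agent.H141R2.FS.rep h4 hco h1 h2
  exact ⟨x, y, z, w, h3, h5.symm⟩

end Pool.Agent.R518.FS4
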