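import Pool.Agent.Y877.SxP
import Pool.Agent.TH665.GP.F3

/-!
# Almost all multiples of a small primorial are sums of an iterated prime and a prime
-/

set_option autoImplicit false

open Finset

namespace Pool.Agent.R518.IP

/-- the `i`-th `a`-prime -/
noncomputable def ip (a i : ℕ) : ℕ := Nat.iterate (fun k : ℕ => Nat.nth Nat.Prime (k - 1)) (a + 1) i

open Classical in
/-- the `a`-primes `≤ x` -/
noncomputable def IPs (a x : ℕ) : Finset ℕ := (Icc 1 x).filter (fun u => ∃ i : ℕ, 0 < i ∧ ip a i = u)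

/-- the product of `1 - 1/q` over the primes `q ≤ y` -/
noncomputable def V (y : ℕ) : ℝ := ∏ q ∈ (Icc 1 y).filter Nat.Prime, (1 - 1 / (q : ℝ))

/-- the `u ∈ S` such that `N - u` is prime -/
def Rep (S : Finset ℕ) (N : ℕ) : Finset ℕ := S.filter (fun u => (N - u).Prime)

lemma ip_prime (a i : ℕ) : (ip a i).Prime := by
  unfold ip
  rw [Function.iterate_succ_apply']
  exact Nat.prime_nth_prime _

lemma IPs_low (a : ℕ) : ∃ c : ℝ, 0 < c ∧ ∃ x0 : ℕ, ∀ x : ℕ, x0 ≤ x →
    c * x ≤ ((IPs a x).card : ℝ) * Real.log x ^ (a + 1) := by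
  classical
  obtain ⟨c, hc, y0, h⟩ := Pool.Agent.TH665.GP.density a
  refine ⟨c, hc, max y0 1, fun x hx => ?_⟩
  obtain ⟨S, hS1, hS2, hS3⟩ := h x ((le_max_left _ _).trans hx)
  have hx1 : 1 ≤ x := (le_max_right _ _).trans hx
  refine hS3.trans ?_
  apply mul_le_mul_of_nonneg_right
  · have : S ⊆ IPs a x := by
      intro u hu
      unfold IPs
      rw [mem_filter]
      refine ⟨hS1 hu, ?_⟩
      obtain ⟨i, hi, hi2⟩ := Pool.Agent.TH665.GP.exists_index (hS2 u hu)
      exact ⟨i, hi, hi2⟩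
    exact_mod_cast card_le_card this
  · have : 0 ≤ Real.log x := Real.log_nonneg (by exact_mod_cast hx1)
    positivity

open Classical in
/-- one type -/
theorem one (a C : ℕ) (ε : ℝ) (hε : 0 < ε) (hε1 : ε ≤ 1) : ∃ K₀ : ℕ, ∀ K₁ : ℕ, ∃ x₀ : ℕ, ∀ x : ℕ, x₀ ≤ x →
    ∀ y : ℕ, K₀ * Real.log (Real.log x) ≤ y → y ≤ K₁ * Real.log (Real.log x) →
    ∀ g₀ G : ℕ, x ≤ primorial y * g₀ → primorial y * (g₀ + G) ≤ 2 * x → (x : ℝ) ≤ primorial y * G * Real.log x ^ C →
    (((Icc 1 G).filter (fun g => ((Rep (IPs a x) (primorial y * (g₀ + g))).card : ℝ) <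
      (1 - ε) * ((IPs a x).card / (V y * Real.log x)))).card : ℝ) ≤ ε * G := by
  obtain ⟨K₀, hK₀⟩ := Pool.Agent.Y877.SX.step_neg 1 (Or.inl rfl) (a + 2) C ε hε hε1
  refine ⟨K₀, fun K₁ => ?_⟩
  obtain ⟨c, hc, n1, hn1⟩ := IPs_low a
  obtain ⟨n2, hn2⟩ := hK₀ K₁
  obtain ⟨n3, hn3⟩ := Pool.Agent.H373R2.T7.ev_L' (max 1 (1 / c))
  refine ⟨max n1 (max n2 n3), fun x hx y hy1 hy2 g₀ G hg0 hg1 hg2 => ?_⟩
  have b1 : n1 ≤ x := le_trans (le_max_left _ _) hx
  have b2 : n2 ≤ x := le_trans (le_trans (le_max_left _ _) (le_max_right _ _)) hx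
  have b3 : n3 ≤ x := le_trans (le_trans (le_max_right _ _) (le_max_right _ _)) hx
  have hL := hn3 x b3
  have hL1 : 1 ≤ Real.log x := (le_max_left _ _).trans hL
  have hL2 : 1 / c ≤ Real.log x := (le_max_right _ _).trans hL
  have hlow := hn1 x b1
  have h1 := hn2 x b2 y hy1 hy2 (IPs a x) (filter_subset _ _) (fun u hu => by
      unfold IPs at hu
      rw [mem_filter] at hu
      obtain ⟨i, _, hi⟩ := hu.2
      rw [← hi]
      exact ip_prime a i) (by
      rw [div_le_iff₀ hc] at hL2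
      have hx0 : (0 : ℝ) ≤ x := Nat.cast_nonneg x
      calc (x : ℝ) = x * 1 := by ring
        _ ≤ x * (Real.log x * c) := mul_le_mul_of_nonneg_left hL2 hx0
        _ = (c * x) * Real.log x := by ring
        _ ≤ ((IPs a x).card * Real.log x ^ (a + 1)) * Real.log x :=
            mul_le_mul_of_nonneg_right hlow (by linarith)
        _ = _ := by ring) g₀ G (by rw [pow_one]; exact hg0) (by rw [pow_one]; exact hg1)
      (by rw [pow_one]; exact hg2)
  refine le_trans (le_of_eq ?_) h1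
  congr 2
  apply filter_congr
  intro g _
  simp only [pow_one, Nat.cast_one, one_mul]
  rfl

open Classical in
/-- all types up to `A` -/
theorem many (A C : ℕ) (ε : ℝ) (hε : 0 < ε) (hε1 : ε ≤ 1) : ∃ K₀ : ℕ, ∀ K₁ : ℕ, ∃ x₀ : ℕ, ∀ x : ℕ, x₀ ≤ x →
    ∀ y : ℕ, K₀ * Real.log (Real.log x) ≤ y → y ≤ K₁ * Real.log (Real.log x) →
    ∀ g₀ G : ℕ, x ≤ primorial y * g₀ → primorial y * (g₀ + G) ≤ 2 * x → (x : ℝ) ≤ primorial y * G * Real.log x ^ C →
    (((Icc 1 G).filter (fun g => ∃ a ≤ A, ((Rep (IPs a x) (primorial y * (g₀ + g))).card : ℝ) <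
      (1 - ε) * ((IPs a x).card / (V y * Real.log x)))).card : ℝ) ≤ ε * G := by
  have hA : (0 : ℝ) < A + 1 := by positivity
  have hA1 : (1 : ℝ) ≤ A + 1 := by
    have : (0 : ℝ) ≤ A := Nat.cast_nonneg A
    linarith
  have he0 : 0 < ε / (A + 1) := by positivity
  have he1 : ε / (A + 1) ≤ 1 := by
    rw [div_le_one hA]
    linarith
  have hee : ε / (A + 1) ≤ ε := div_le_self hε.le hA1
  have h := fun a => one a C (ε / (A + 1)) he0 he1
  choose K₀ hK₀ using h
  refine ⟨(range (A + 1)).sup K₀, fun K₁ => ?_⟩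
  have h := fun a => hK₀ a K₁
  choose x₀ hx₀ using h
  obtain ⟨n1, hn1⟩ := Pool.Agent.H373R2.T7.ev_L' 1
  refine ⟨max ((range (A + 1)).sup x₀) (max n1 3), fun x hx y hy1 hy2 g₀ G hg0 hg1 hg2 => ?_⟩
  have b1 : (range (A + 1)).sup x₀ ≤ x := (le_max_left _ _).trans hx
  have b2 : n1 ≤ x := ((le_max_left _ _).trans (le_max_right _ _)).trans hx
  have hL := hn1 x b2
  have hLL : 0 ≤ Real.log (Real.log x) := Real.log_nonneg hL
  have key : ∀ a ∈ range (A + 1), (((Icc 1 G).filter (fun g =>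
      ((Rep (IPs a x) (primorial y * (g₀ + g))).card : ℝ) <
      (1 - ε) * ((IPs a x).card / (V y * Real.log x)))).card : ℝ) ≤ ε / (A + 1) * G := by
    intro a ha
    have h1 := hx₀ a x ((Finset.le_sup ha).trans b1) y (by
      refine le_trans ?_ hy1
      apply mul_le_mul_of_nonneg_right _ hLL
      exact_mod_cast Finset.le_sup ha) hy2 g₀ G hg0 hg1 hg2
    refine le_trans ?_ h1
    have h2 : ((Icc 1 G).filter (fun g =>
        ((Rep (IPs a x) (primorial y * (g₀ + g))).card : ℝ) <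
        (1 - ε) * ((IPs a x).card / (V y * Real.log x)))) ⊆ ((Icc 1 G).filter (fun g =>
        ((Rep (IPs a x) (primorial y * (g₀ + g))).card : ℝ) <
        (1 - ε / (A + 1)) * ((IPs a x).card / (V y * Real.log x)))) := by
      intro g hg
      rw [mem_filter] at hg ⊢
      refine ⟨hg.1, hg.2.trans_le ?_⟩
      apply mul_le_mul_of_nonneg_right (by linarith)
      have hV : 0 ≤ V y := by
        unfold V
        apply prod_nonneg
        intro q hq
        have hq1 : (1 : ℝ) ≤ q := by exact_mod_cast (mem_filter.1 hq).2.one_lt.le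
        have : 1 / (q : ℝ) ≤ 1 := by
          rw [div_le_one (by linarith)]
          exact hq1
        linarith
      have : 0 ≤ Real.log x := by linarith
      positivity
    exact_mod_cast card_le_card h2
  have hsub : ((Icc 1 G).filter (fun g => ∃ a ≤ A, ((Rep (IPs a x) (primorial y * (g₀ + g))).card : ℝ) <
      (1 - ε) * ((IPs a x).card / (V y * Real.log x)))) ⊆
      (range (A + 1)).biUnion (fun a => (Icc 1 G).filter (fun g =>
        ((Rep (IPs a x) (primorial y * (g₀ + g))).card : ℝ) <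
        (1 - ε) * ((IPs a x).card / (V y * Real.log x)))) := by
    intro g hg
    rw [mem_filter] at hg
    obtain ⟨hg1, a, ha, hg2⟩ := hg
    rw [mem_biUnion]
    exact ⟨a, mem_range.2 (by omega), mem_filter.2 ⟨hg1, hg2⟩⟩
  have h3 := (card_le_card hsub).trans card_biUnion_le
  have h4 : (((Icc 1 G).filter (fun g => ∃ a ≤ A, ((Rep (IPs a x) (primorial y * (g₀ + g))).card : ℝ) <
      (1 - ε) * ((IPs a x).card / (V y * Real.log x)))).card : ℝ) ≤
      ∑ a ∈ range (A + 1), (((Icc 1 G).filter (fun g =>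
        ((Rep (IPs a x) (primorial y * (g₀ + g))).card : ℝ) <
        (1 - ε) * ((IPs a x).card / (V y * Real.log x)))).card : ℝ) := by exact_mod_cast h3
  refine h4.trans ((sum_le_sum key).trans ?_)
  rw [sum_const, card_range, nsmul_eq_mul]
  push_cast
  rw [← mul_assoc, mul_div_cancel₀ _ hA.ne']

end Pool.Agent.R518.IP
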