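import Pool.Agent.R490.Prog
import Pool.Agent.R490.Adm

set_option autoImplicit false

/-!
# The forms `6 (q m + a) - 1`, `6 (q m + a) + 1`
-/

namespace Pool.Agent.R518.SK

open Finset Filter
open Pool.Agent.R490.Pg
open Pool.Agent.R490

lemma card (q a : ℕ) : (fq (6 * q) (6 * a - 1) {0, 2}).card = 2 := by
  rw [fq_card]
  rfl

lemma rep (q a : ℕ) (ha : 1 ≤ a) : Rep (fq (6 * q) (6 * a - 1) {0, 2})
    (fun p m => p ∣ 6 * (q * m + a) - 1 ∨ p ∣ 6 * (q * m + a) + 1) := by
  intro p m
  rw [fq_rep]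
  simp only [Finset.mem_insert, Finset.mem_singleton, exists_eq_or_imp, exists_eq_left]
  have e1 : 6 * q * m + (6 * a - 1) + 0 = 6 * (q * m + a) - 1 := by
    have : 6 * (q * m + a) = 6 * q * m + 6 * a := by ring
    omega
  have e2 : 6 * q * m + (6 * a - 1) + 2 = 6 * (q * m + a) + 1 := by
    have : 6 * (q * m + a) = 6 * q * m + 6 * a := by ring
    omega
  rw [e1, e2]

lemma six (a : ℕ) (ha : 1 ≤ a) : Nat.Coprime 6 (6 * a - 1) ∧ Nat.Coprime 6 (6 * a + 1) := by
  constructor
  · have : 6 * a - 1 = 5 + 6 * (a - 1) := by omega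
    rw [this, Nat.coprime_add_mul_left_right]
    decide
  · rw [add_comm, Nat.coprime_add_mul_left_right]
    decide

lemma good (q a X A : ℕ) (hX : 8 ≤ X) (hq : 1 ≤ q) (hqX : q ≤ X ^ A) (ha : 1 ≤ a) (haq : a ≤ q)
    (hc1 : Nat.Coprime q (6 * a - 1)) (hc2 : Nat.Coprime q (6 * a + 1)) :
    Li.Good (X ^ (A + 1)) (fq (6 * q) (6 * a - 1) {0, 2}) := by
  have e : X ^ (A + 1) = X * X ^ A := by ring
  have h1 : 8 * q ≤ X ^ (A + 1) := by
    rw [e]
    exact Nat.mul_le_mul hX hqX
  apply fq_good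
  · omega
  · omega
  · intro h hh
    simp only [Finset.mem_insert, Finset.mem_singleton] at hh
    rcases hh with rfl | rfl <;> omega
  · intro h hh
    simp only [Finset.mem_insert, Finset.mem_singleton] at hh
    rcases hh with rfl | rfl
    · rw [add_zero]
      exact Nat.Coprime.mul_left (six a ha).1 hc1
    · have : 6 * a - 1 + 2 = 6 * a + 1 := by omega
      rw [this]
      exact Nat.Coprime.mul_left (six a ha).2 hc2
  · exact fun p hp => Pool.Agent.R490.Tu.adm_tw p hp

lemma noT (q a : ℕ) (hq : 1 ≤ q) : Li.NoT (fq (6 * q) (6 * a - 1) {0, 2}) := by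
  apply fq_noT
  · omega
  · intro h hh h' hh' hlt hd
    simp only [Finset.mem_insert, Finset.mem_singleton] at hh hh'
    have h2 : h - h' = 2 := by
      rcases hh with rfl | rfl <;> rcases hh' with rfl | rfl <;> omega
    rw [h2] at hd
    have := Nat.le_of_dvd (by norm_num) hd
    omega

end Pool.Agent.R518.SK
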