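import Pool.Agent.R518.B.Gen
import Pool.Agent.Y879.GL.Linear
import Pool.Agent.Y879.GL.QuadU

set_option autoImplicit false

/-!
# The systems
-/

namespace Pool.Agent.R518.G

open Polynomial Finset Filter
open Pool.Agent.W123.RP Pool.Agent.H373R2.T7 Pool.Agent.W123.RU Pool.Agent.W123.RU.Poly
open Pool.Agent.TH464.PW Pool.Agent.TH464.PO Pool.Agent.Y879.GL

lemma nat_of_int (p : ℕ) (hp : p.Prime) (x : ℤ) : ∃ m : ℕ, m < p ∧ (p : ℤ) ∣ (m : ℤ) - x := by
  have hp0 : (0 : ℤ) < p := by exact_mod_cast hp.pos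
  refine ⟨(x % p).toNat, ?_, ?_⟩
  · have h1 := Int.emod_lt_of_pos x hp0
    have h2 := Int.emod_nonneg x hp0.ne'
    omega
  · rw [Int.toNat_of_nonneg (Int.emod_nonneg x hp0.ne')]
    exact Int.dvd_emod_sub_self

lemma eval_cong (f : ℤ[X]) (p a b : ℤ) (h : p ∣ a - b) : p ∣ f.eval a ↔ p ∣ f.eval b := by
  have h1 := h.trans (Polynomial.sub_dvd_eval_sub a b f)
  constructor
  · intro h2
    have := dvd_sub h2 h1
    rwa [sub_sub_cancel] at this
  · intro h2
    have := dvd_add h1 h2
    rwa [sub_add_cancel] at this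

lemma adm_int {k : ℕ} (F : Fin k → ℤ[X]) (p : ℕ) (hp : p.Prime) (x : ℤ) (h : ∀ i, ¬ (p : ℤ) ∣ (F i).eval x) :
    ∃ m : ℕ, ∀ i, ¬ (p : ℤ) ∣ (F i).eval (m : ℤ) := by
  obtain ⟨m, -, hm⟩ := nat_of_int p hp x
  exact ⟨m, fun i hd => h i ((eval_cong (F i) p m x hm).1 hd)⟩

lemma quad_shift (a b c t x : ℤ) : ((quad a b c).comp (X + C t)).eval x = a * (x + t) ^ 2 + b * (x + t) + c := by
  rw [eval_comp, quad_eval]
  simp

lemma lf_comp_eval (a b t x : ℤ) : ((lf a b).comp (X + C t)).eval x = a * (x + t) + b := by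
  rw [eval_comp, lf_eval]
  simp

/-- equality up to sign from the association of two polynomials -/
lemma assoc_eval {f h : ℤ[X]} (ha : Associated f h) :
    (∀ x, f.eval x = h.eval x) ∨ (∀ x, f.eval x = - h.eval x) := by
  rcases assoc_cases ha with h1 | h1
  · left
    intro x
    rw [h1]
  · right
    intro x
    rw [h1, eval_neg]

/-! ## Two linear forms `x + a`, `b - x` -/

/-- the system -/
noncomputable def ab (a b : ℤ) : Fin 2 → ℤ[X] := ![lf 1 a, lf 1 (-b)]

lemma ab_rep (a b : ℤ) : Rep (ab a b) (fun p m => (p : ℤ) ∣ a + (m : ℤ) ∨ (p : ℤ) ∣ b - (m : ℤ)) := by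
  intro p m
  unfold Poly.Q ab
  rw [Fin.exists_fin_two]
  simp only [Matrix.cons_val_zero, Matrix.cons_val_one, lf_eval]
  simp only [one_mul]
  rw [add_comm (m : ℤ) a]
  apply or_congr_right
  rw [← dvd_neg]
  have : -((m : ℤ) + -b) = b - m := by ring
  rw [this]

lemma ab_us (a b H : ℤ) (hH1 : 1 ≤ H) (ha : |a| ≤ H) (hb : |b| ≤ H) (hpar : Even (a + b)) (U : ℝ)
    (hU : U < ((a + b : ℤ) : ℝ)) (_hab : 0 < a + b) : US 2 1 (H : ℝ) U (ab a b) where
  irr := fun i => by
    fin_cases i
    · exact lf_irr 1 a one_ne_zero isCoprime_one_left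
    · exact lf_irr 1 (-b) one_ne_zero isCoprime_one_left
  deg := fun i => by
    fin_cases i
    · show (lf 1 a).natDegree ≠ 0
      rw [lf_deg 1 a one_ne_zero]; norm_num
    · show (lf 1 (-b)).natDegree ≠ 0
      rw [lf_deg 1 (-b) one_ne_zero]; norm_num
  degD := fun i => by
    fin_cases i
    · exact (lf_deg 1 a one_ne_zero).le
    · exact (lf_deg 1 (-b) one_ne_zero).le
  hgt := fun i n => by
    have key : ∀ c : ℤ, |c| ≤ H → |((lf 1 c).coeff n : ℤ)| ≤ H := by
      intro c hc
      rw [lf_coeff]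
      split_ifs
      · exact hc
      · simpa using hH1
      · simp only [abs_zero]; linarith
    fin_cases i
    · have := key a ha
      exact_mod_cast this
    · have := key (-b) (by rwa [abs_neg])
      exact_mod_cast this
  adm := fun p hp => by
    by_cases hp2 : p = 2
    · subst hp2
      apply adm_int _ _ hp (1 - a)
      intro i
      have h1 : Even (1 - a + -b + 1) := by
        have : 1 - a + -b + 1 = 2 - (a + b) := by ring
        rw [this]
        exact even_two.sub hpar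
      fin_cases i
      · show ¬ ((2 : ℕ) : ℤ) ∣ (lf 1 a).eval (1 - a)
        rw [lf_eval]
        intro h
        have : (1 : ℤ) * (1 - a) + a = 1 := by ring
        rw [this] at h
        norm_num at h
      · show ¬ ((2 : ℕ) : ℤ) ∣ (lf 1 (-b)).eval (1 - a)
        rw [lf_eval]
        intro h
        have h2 : Even (1 * (1 - a) + -b) := by
          rw [even_iff_two_dvd]
          exact_mod_cast h
        have h3 := h1.sub h2
        have : 1 - a + -b + 1 - (1 * (1 - a) + -b) = 1 := by ring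
        rw [this] at h3
        exact absurd h3 (by decide)
    · have hp3 : 3 ≤ p := by
        have := hp.two_le
        omega
      have hpp : Prime (p : ℤ) := Nat.prime_iff_prime_int.1 hp
      have hnd : ∀ d : ℤ, d = 1 ∨ d = 2 → ¬ (p : ℤ) ∣ d := by
        intro d hd h
        have h1 := Int.le_of_dvd (by omega) h
        have h2 : (3 : ℤ) ≤ p := by exact_mod_cast hp3
        omega
      by_contra hcon
      push Not at hcon
      have h0 := hcon 0
      have h1 := hcon 1
      have h2 := hcon 2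
      have e : ∀ m : ℕ, (∃ i, (p : ℤ) ∣ (ab a b i).eval (m : ℤ)) →
          (p : ℤ) ∣ a + (m : ℤ) ∨ (p : ℤ) ∣ b - (m : ℤ) := fun m hm => (ab_rep a b p m).1 hm
      have h0' := e 0 h0
      have h1' := e 1 h1
      have h2' := e 2 h2
      push_cast at h0' h1' h2'
      rcases h0' with h0' | h0' <;> rcases h1' with h1' | h1' <;> rcases h2' with h2' | h2'
      · exact hnd 1 (Or.inl rfl) (by have := dvd_sub h1' h0'; ring_nf at this; exact this)
      · exact hnd 1 (Or.inl rfl) (by have := dvd_sub h1' h0'; ring_nf at this; exact this)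
      · exact hnd 2 (Or.inr rfl) (by have := dvd_sub h2' h0'; ring_nf at this; exact this)
      · exact hnd 1 (Or.inl rfl) (by have := dvd_sub h1' h2'; ring_nf at this; exact this)
      · exact hnd 1 (Or.inl rfl) (by have := dvd_sub h2' h1'; ring_nf at this; exact this)
      · exact hnd 2 (Or.inr rfl) (by have := dvd_sub h0' h2'; ring_nf at this; exact this)
      · exact hnd 1 (Or.inl rfl) (by have := dvd_sub h0' h1'; ring_nf at this; exact this)
      · exact hnd 1 (Or.inl rfl) (by have := dvd_sub h0' h1'; ring_nf at this; exact this)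
  tr := fun i j t ht htU ha => by
    have ht1 : (1 : ℤ) ≤ t := by exact_mod_cast ht
    have htU2 : (t : ℤ) < a + b := by
      have := htU.trans_lt hU
      exact_mod_cast this
    fin_cases i <;> fin_cases j
    · rcases lf_assoc _ _ _ _ _ ha with h | h
      · have := h.2; omega
      · have := h.1; omega
    · rcases lf_assoc _ _ _ _ _ ha with h | h
      · have := h.2; omega
      · have := h.1; omega
    · rcases lf_assoc _ _ _ _ _ ha with h | h
      · have := h.2; omega
      · have := h.1; omega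
    · rcases lf_assoc _ _ _ _ _ ha with h | h
      · have := h.2; omega
      · have := h.1; omega

lemma ab_noAs (a b : ℤ) (U : ℝ) (hab : 0 < a + b) : NoAs (ab a b) {(a + b).toNat} U := by
  intro i j t ht _ htE ha
  rw [mem_singleton] at htE
  have ht1 : (1 : ℤ) ≤ t := by exact_mod_cast ht
  fin_cases i <;> fin_cases j
  · rcases lf_assoc _ _ _ _ _ ha with h | h
    · have := h.2; omega
    · have := h.1; omega
  · rcases lf_assoc _ _ _ _ _ ha with h | h
    · have := h.2; omega
    · have := h.1; omega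
  · rcases lf_assoc _ _ _ _ _ ha with h | h
    · have := h.2; omega
    · have := h.1; omega
  · rcases lf_assoc _ _ _ _ _ ha with h | h
    · have := h.2; omega
    · have := h.1; omega

lemma ab_root (a b : ℤ) (p : ℕ) (hp : p.Prime) :
    ∃ m < p, (p : ℤ) ∣ a + (m : ℤ) ∨ (p : ℤ) ∣ b - (m : ℤ) := by
  obtain ⟨m, hm, hd⟩ := nat_of_int p hp (-a)
  refine ⟨m, hm, Or.inl ?_⟩
  have : (m : ℤ) - -a = a + m := by ring
  rwa [this] at hd

/-! ## The pair `x ^ 2 + k + 1`, `(x + 1) ^ 2 - k` -/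

/-- the system -/
noncomputable def sq (k : ℤ) : Fin 2 → ℤ[X] := ![quad 1 0 (k + 1), quad 1 2 (1 - k)]

lemma sq_rep (k : ℤ) : Rep (sq k) (fun p m => (p : ℤ) ∣ (m : ℤ) ^ 2 + k + 1 ∨ (p : ℤ) ∣ ((m : ℤ) + 1) ^ 2 - k) := by
  intro p m
  unfold Poly.Q sq
  rw [Fin.exists_fin_two]
  simp only [Matrix.cons_val_zero, Matrix.cons_val_one, quad_eval]
  have e1 : (1 : ℤ) * m ^ 2 + 0 * m + (k + 1) = m ^ 2 + k + 1 := by ring
  have e2 : (1 : ℤ) * m ^ 2 + 2 * m + (1 - k) = (m + 1) ^ 2 - k := by ring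
  rw [e1, e2]

lemma sq_us (k H : ℤ) (hk : 0 < k) (hH : 2 ≤ H) (hkH : k + 1 ≤ H) (hk3 : k % 3 ≠ 1) (hks : ¬ IsSquare k) (U : ℝ) :
    US 2 2 (H : ℝ) U (sq k) where
  irr := fun i => by
    have hg : ∀ c d : ℤ, ∀ p : ℕ, p.Prime → ¬ ((p : ℤ) ∣ 1 ∧ (p : ℤ) ∣ c ∧ (p : ℤ) ∣ d) := by
      rintro c d p hp ⟨hd, -, -⟩
      exact hp.one_lt.ne' (Nat.dvd_one.1 (by exact_mod_cast hd))
    fin_cases i
    · apply quad_irr _ _ _ one_ne_zero (hg _ _)
      rintro ⟨r, hr⟩
      nlinarith [mul_self_nonneg r]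
    · apply quad_irr _ _ _ one_ne_zero (hg _ _)
      rintro ⟨r, hr⟩
      apply hks
      have h1 : r * r = 4 * k := by linarith
      have h2 : Even (r * r) := by
        rw [h1]
        exact ⟨2 * k, by ring⟩
      rw [Int.even_mul] at h2
      have h3 : Even r := by tauto
      obtain ⟨s, hs⟩ := h3
      refine ⟨s, ?_⟩
      rw [hs] at h1
      nlinarith
  deg := fun i => by
    fin_cases i
    · show (quad 1 0 (k + 1)).natDegree ≠ 0
      rw [quad_deg _ _ _ one_ne_zero]; norm_num
    · show (quad 1 2 (1 - k)).natDegree ≠ 0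
      rw [quad_deg _ _ _ one_ne_zero]; norm_num
  degD := fun i => by
    fin_cases i
    · exact (quad_deg _ _ _ one_ne_zero).le
    · exact (quad_deg _ _ _ one_ne_zero).le
  hgt := fun i n => by
    fin_cases i
    · have h := quad_coeff 1 0 (k + 1) n H (by simpa using (by linarith : (1 : ℤ) ≤ H)) (by simpa using (by linarith : (0 : ℤ) ≤ H))
        (by rw [abs_of_nonneg (by linarith)]; exact hkH)
      exact_mod_cast h
    · have h := quad_coeff 1 2 (1 - k) n H (by simpa using (by linarith : (1 : ℤ) ≤ H)) (by simpa using hH)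
        (by rw [abs_le]; constructor <;> linarith)
      exact_mod_cast h
  adm := fun p hp => by
    have hpp : Prime (p : ℤ) := Nat.prime_iff_prime_int.1 hp
    by_contra hcon
    have c0 : ¬ ∀ i, ¬ (p : ℤ) ∣ (sq k i).eval 0 := fun h => hcon (adm_int _ p hp 0 h)
    have c1 : ¬ ∀ i, ¬ (p : ℤ) ∣ (sq k i).eval (-1) := fun h => hcon (adm_int _ p hp (-1) h)
    push Not at c0 c1
    rw [Fin.exists_fin_two] at c0 c1
    unfold sq at c0 c1
    simp only [Matrix.cons_val_zero, Matrix.cons_val_one, quad_eval] at c0 c1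
    have f : ¬ (p : ℤ) ∣ 1 := fun h => hpp.not_isUnit (isUnit_of_dvd_one h)
    rcases c0 with c0 | c0 <;> rcases c1 with c1 | c1
    · apply f
      have := dvd_sub c1 c0
      ring_nf at this
      exact this
    · apply f
      have := dvd_add c1 c0
      ring_nf at this
      exact this
    · have h3 : (p : ℤ) ∣ 3 := by
        have := dvd_add c1 c0
        ring_nf at this
        exact this
      have h4 : p ∣ 3 := by exact_mod_cast h3
      have h5 : p = 3 := (Nat.prime_dvd_prime_iff_eq hp Nat.prime_three).1 h4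
      subst h5
      push_cast at c0
      ring_nf at c0
      omega
    · apply f
      have := dvd_sub c0 c1
      ring_nf at this
      exact this
  tr := fun i j t ht htU ha => by
    have ht1 : (1 : ℤ) ≤ t := by exact_mod_cast ht
    rcases assoc_eval ha with h | h
    · have h0 := h 0
      have h1 := h 1
      have h2 := h (-1)
      fin_cases i <;> fin_cases j <;>
      · simp only [sq, Fin.zero_eta, Fin.mk_one, Matrix.cons_val_zero, Matrix.cons_val_one, quad_eval, quad_shift] at h0 h1 h2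
        have h3 : (t : ℤ) * t = t * t := rfl
        nlinarith
    · have h0 := h 0
      have h1 := h 1
      have h2 := h (-1)
      fin_cases i <;> fin_cases j <;>
      · simp only [sq, Fin.zero_eta, Fin.mk_one, Matrix.cons_val_zero, Matrix.cons_val_one, quad_eval, quad_shift] at h0 h1 h2
        linarith

/-! ## The system `α x + β`, `x - γ`, `(x - γ) ^ 2 - 2` -/

/-- the system -/
noncomputable def fl (α β γ : ℤ) : Fin 3 → ℤ[X] := ![lf α β, lf 1 (-γ), quad 1 (-2 * γ) (γ ^ 2 - 2)]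

lemma fl_rep (α β γ : ℤ) : Rep (fl α β γ) (fun p m => (p : ℤ) ∣ α * (m : ℤ) + β ∨ (p : ℤ) ∣ (m : ℤ) - γ ∨
    (p : ℤ) ∣ ((m : ℤ) - γ) ^ 2 - 2) := by
  intro p m
  unfold Poly.Q fl
  rw [Fin.exists_fin_succ, Fin.exists_fin_two]
  simp only [Matrix.cons_val_zero, Matrix.cons_val_one, Matrix.cons_val_succ, Fin.succ_zero_eq_one,
    Fin.succ_one_eq_two, quad_eval, lf_eval, Matrix.cons_val]
  have e1 : (1 : ℤ) * m + -γ = m - γ := by ring
  have e2 : (1 : ℤ) * m ^ 2 + -2 * γ * m + (γ ^ 2 - 2) = (m - γ) ^ 2 - 2 := by ring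
  rw [e1, e2]

lemma fl_cases {P : Fin 3 → Prop} (h0 : P 0) (h1 : P 1) (h2 : P 2) (i : Fin 3) : P i := by
  fin_cases i
  · exact h0
  · exact h1
  · exact h2

lemma fl0 (α β γ : ℤ) : fl α β γ 0 = lf α β := rfl
lemma fl1 (α β γ : ℤ) : fl α β γ 1 = lf 1 (-γ) := rfl
lemma fl2 (α β γ : ℤ) : fl α β γ 2 = quad 1 (-2 * γ) (γ ^ 2 - 2) := rfl

/-- associations in the system -/
lemma fl_as (α β γ : ℤ) (hα : 1 ≤ α) (i j : Fin 3) (t : ℕ) (ht : 1 ≤ t)
    (ha : Associated (fl α β γ i) ((fl α β γ j).comp (X + C (t : ℤ)))) :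
    α = 1 ∧ ((t : ℤ) = β + γ ∨ (t : ℤ) = -(β + γ)) := by
  have ht1 : (1 : ℤ) ≤ t := by exact_mod_cast ht
  have d1 : ∀ a b : ℤ, a ≠ 0 → ∀ c d e s : ℤ, c ≠ 0 → ¬ Associated (lf a b) ((quad c d e).comp (X + C s)) := by
    intro a b h0 c d e s hc hh
    have h1 : (lf a b).natDegree = ((quad c d e).comp (X + C s)).natDegree := by
      rcases assoc_cases hh with h | h
      · rw [h]
      · rw [h, natDegree_neg]
    rw [lf_deg a b h0, natDegree_comp, quad_deg _ _ _ hc, natDegree_X_add_C] at h1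
    omega
  have d2 : ∀ a b : ℤ, a ≠ 0 → ∀ c d e s : ℤ, c ≠ 0 → ¬ Associated (quad c d e) ((lf a b).comp (X + C s)) := by
    intro a b h0 c d e s hc hh
    have h1 : (quad c d e).natDegree = ((lf a b).comp (X + C s)).natDegree := by
      rcases assoc_cases hh with h | h
      · rw [h]
      · rw [h, natDegree_neg]
    rw [quad_deg _ _ _ hc, natDegree_comp, lf_deg a b h0, natDegree_X_add_C] at h1
    omega
  have hα0 : α ≠ 0 := by omega
  revert ha
  refine fl_cases (P := fun i => Associated (fl α β γ i) ((fl α β γ j).comp (X + C (t : ℤ))) →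
    α = 1 ∧ ((t : ℤ) = β + γ ∨ (t : ℤ) = -(β + γ))) ?_ ?_ ?_ i
  · refine fl_cases (P := fun j => Associated (fl α β γ 0) ((fl α β γ j).comp (X + C (t : ℤ))) →
      α = 1 ∧ ((t : ℤ) = β + γ ∨ (t : ℤ) = -(β + γ))) ?_ ?_ ?_ j
    · rw [fl0]
      intro ha
      exfalso
      exact no_self _ (by rw [lf_deg _ _ hα0]; norm_num) t (by omega) ha
    · rw [fl0, fl1]
      intro ha
      rcases lf_assoc _ _ _ _ _ ha with h | h
      · exact ⟨h.1, Or.inl (by have := h.2; linarith)⟩
      · exfalso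
        have := h.1
        omega
    · rw [fl0, fl2]
      intro ha
      exact absurd ha (d1 _ _ hα0 _ _ _ _ one_ne_zero)
  · refine fl_cases (P := fun j => Associated (fl α β γ 1) ((fl α β γ j).comp (X + C (t : ℤ))) →
      α = 1 ∧ ((t : ℤ) = β + γ ∨ (t : ℤ) = -(β + γ))) ?_ ?_ ?_ j
    · rw [fl0, fl1]
      intro ha
      rcases lf_assoc _ _ _ _ _ ha with h | h
      · have h1 := h.1
        have h2 := h.2
        refine ⟨h1.symm, Or.inr ?_⟩
        rw [← h1] at h2
        linarith
      · exfalso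
        have := h.1
        omega
    · rw [fl1]
      intro ha
      exfalso
      exact no_self _ (by rw [lf_deg _ _ one_ne_zero]; norm_num) t (by omega) ha
    · rw [fl1, fl2]
      intro ha
      exact absurd ha (d1 _ _ one_ne_zero _ _ _ _ one_ne_zero)
  · refine fl_cases (P := fun j => Associated (fl α β γ 2) ((fl α β γ j).comp (X + C (t : ℤ))) →
      α = 1 ∧ ((t : ℤ) = β + γ ∨ (t : ℤ) = -(β + γ))) ?_ ?_ ?_ j
    · rw [fl0, fl2]
      intro ha
      exact absurd ha (d2 _ _ hα0 _ _ _ _ one_ne_zero)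
    · rw [fl1, fl2]
      intro ha
      exact absurd ha (d2 _ _ one_ne_zero _ _ _ _ one_ne_zero)
    · rw [fl2]
      intro ha
      exfalso
      exact no_self _ (by rw [quad_deg _ _ _ one_ne_zero]; norm_num) t (by omega) ha

lemma sqrt_two : ∀ r : ℤ, r * r ≠ 8 := by
  intro r h
  have h1 : r ≤ 3 := by nlinarith
  have h2 : -3 ≤ r := by nlinarith
  interval_cases r <;> omega

lemma fl_us (α β γ H : ℤ) (hα : 1 ≤ α) (hco : IsCoprime α β) (hpar : Odd (α * (γ + 1) + β))
    (hαH : α ≤ H) (hβH : |β| ≤ H) (hγH : γ ^ 2 + 2 ≤ H) (U : ℝ)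
    (hU : α = 1 → U < |((β + γ : ℤ) : ℝ)|) :
    US 3 2 (H : ℝ) U (fl α β γ) where
  irr := fun i => by
    refine fl_cases (P := fun i => Irreducible (fl α β γ i)) ?_ ?_ ?_ i
    · rw [fl0]
      exact lf_irr _ _ (by omega) hco
    · rw [fl1]
      exact lf_irr _ _ one_ne_zero isCoprime_one_left
    · rw [fl2]
      apply quad_irr _ _ _ one_ne_zero
      · rintro p hp ⟨hd, -, -⟩
        exact hp.one_lt.ne' (Nat.dvd_one.1 (by exact_mod_cast hd))
      · rintro ⟨r, hr⟩
        exact sqrt_two r (by linarith)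
  deg := fun i => by
    refine fl_cases (P := fun i => (fl α β γ i).natDegree ≠ 0) ?_ ?_ ?_ i
    · rw [fl0, lf_deg _ _ (by omega)]; norm_num
    · rw [fl1, lf_deg _ _ one_ne_zero]; norm_num
    · rw [fl2, quad_deg _ _ _ one_ne_zero]; norm_num
  degD := fun i => by
    refine fl_cases (P := fun i => (fl α β γ i).natDegree ≤ 2) ?_ ?_ ?_ i
    · rw [fl0, lf_deg _ _ (by omega)]; norm_num
    · rw [fl1, lf_deg _ _ one_ne_zero]; norm_num
    · rw [fl2, quad_deg _ _ _ one_ne_zero]
  hgt := fun i n => by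
    have hγ1 : |γ| ≤ H := by
      rw [abs_le]
      constructor <;> nlinarith
    have hγ2 : |2 * γ| ≤ H := by
      rw [abs_le]
      constructor <;> nlinarith [sq_nonneg (γ - 1), sq_nonneg (γ + 1)]
    have hH1 : (1 : ℤ) ≤ H := by nlinarith
    have key : ∀ c d : ℤ, |c| ≤ H → |d| ≤ H → |((lf c d).coeff n : ℤ)| ≤ H := by
      intro c d hc hd
      rw [lf_coeff]
      split_ifs
      · exact hd
      · exact hc
      · simp only [abs_zero]; linarith
    refine fl_cases (P := fun i => |(((fl α β γ i).coeff n : ℤ) : ℝ)| ≤ H) ?_ ?_ ?_ i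
    · rw [fl0]
      have := key α β (by rw [abs_of_nonneg (by omega)]; exact hαH) hβH
      exact_mod_cast this
    · rw [fl1]
      have := key 1 (-γ) (by simpa using hH1) (by rw [abs_neg]; exact hγ1)
      exact_mod_cast this
    · rw [fl2]
      have := quad_coeff 1 (-2 * γ) (γ ^ 2 - 2) n H (by simpa using hH1)
        (by rw [neg_mul, abs_neg]; exact hγ2) (by rw [abs_le]; constructor <;> nlinarith)
      exact_mod_cast this
  adm := fun p hp => by
    have hpp : Prime (p : ℤ) := Nat.prime_iff_prime_int.1 hp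
    have f : ¬ (p : ℤ) ∣ 1 := fun h => hpp.not_isUnit (isUnit_of_dvd_one h)
    -- the points `γ + 1` and `γ - 1`
    have key : ∀ s : ℤ, s = 1 ∨ s = -1 → ¬ (p : ℤ) ∣ α * (γ + s) + β →
        ∃ m : ℕ, ∀ i, ¬ (p : ℤ) ∣ (fl α β γ i).eval (m : ℤ) := by
      intro s hs hd
      apply adm_int _ p hp (γ + s)
      intro i
      refine fl_cases (P := fun i => ¬ (p : ℤ) ∣ (fl α β γ i).eval (γ + s)) ?_ ?_ ?_ i
      · rw [fl0, lf_eval]
        exact hd
      · rw [fl1, lf_eval]
        intro h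
        have e : 1 * (γ + s) + -γ = s := by ring
        rw [e] at h
        rcases hs with rfl | rfl
        · exact f h
        · exact f ((dvd_neg).1 h)
      · rw [fl2, quad_eval]
        intro h
        have e : 1 * (γ + s) ^ 2 + -2 * γ * (γ + s) + (γ ^ 2 - 2) = s * s - 2 := by ring
        rw [e] at h
        rcases hs with rfl | rfl
        · exact f ((dvd_neg).1 (by simpa using h))
        · exact f ((dvd_neg).1 (by simpa using h))
    by_cases h1 : (p : ℤ) ∣ α * (γ + 1) + β
    · have hp2 : p ≠ 2 := by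
        rintro rfl
        have h2 : Even (α * (γ + 1) + β) := by
          rw [even_iff_two_dvd]
          exact_mod_cast h1
        exact (Int.not_even_iff_odd.2 hpar) h2
      apply key (-1) (Or.inr rfl)
      intro h2
      have h3 : (p : ℤ) ∣ 2 * α := by
        have := dvd_sub h1 h2
        ring_nf at this
        ring_nf
        exact this
      rcases hpp.dvd_or_dvd h3 with h4 | h4
      · apply hp2
        have h5 : p ∣ 2 := by exact_mod_cast h4
        exact (Nat.prime_dvd_prime_iff_eq hp Nat.prime_two).1 h5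
      · have h5 : (p : ℤ) ∣ β := (Int.dvd_add_right (dvd_mul_of_dvd_left h4 _)).1 h1
        exact hpp.not_isUnit (hco.isUnit_of_dvd' h4 h5)
    · exact key 1 (Or.inl rfl) h1
  tr := fun i j t ht htU ha => by
    obtain ⟨h1, h2⟩ := fl_as α β γ hα i j t ht ha
    have h3 := hU h1
    have h4 : |((β + γ : ℤ) : ℝ)| = (t : ℝ) := by
      have h5 : |β + γ| = (t : ℤ) := by
        rcases h2 with h2 | h2
        · rw [← h2, abs_of_nonneg (by omega)]
        · rw [abs_of_nonpos (by omega)]
          omega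
      exact_mod_cast h5
    rw [h4] at h3
    linarith

lemma fl_noAs (α β γ : ℤ) (hα : 1 ≤ α) (U : ℝ) : NoAs (fl α β γ) {(β + γ).natAbs} U := by
  intro i j t ht _ htE ha
  rw [mem_singleton] at htE
  obtain ⟨h1, h2⟩ := fl_as α β γ hα i j t ht ha
  omega

lemma fl_root (α β γ : ℤ) (p : ℕ) (hp : p.Prime) :
    ∃ m < p, (p : ℤ) ∣ α * (m : ℤ) + β ∨ (p : ℤ) ∣ (m : ℤ) - γ ∨ (p : ℤ) ∣ ((m : ℤ) - γ) ^ 2 - 2 := by
  obtain ⟨m, hm, hd⟩ := nat_of_int p hp γ
  exact ⟨m, hm, Or.inr (Or.inl hd)⟩

end Pool.Agent.R518.G
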