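import Pool.Agent.R518.B.Sys

set_option autoImplicit false

/-!
# The system `q`, `n - j - m q`, `q ^ 2 - 2`
-/

namespace Pool.Agent.R518.G

open Polynomial Finset Filter
open Pool.Agent.W123.RP Pool.Agent.H373R2.T7 Pool.Agent.W123.RU Pool.Agent.W123.RU.Poly
open Pool.Agent.TH464.PW Pool.Agent.TH464.PO Pool.Agent.Y879.GL

lemma rpow_half_lt (n : ℕ) (hn : 2 ≤ n) : (n : ℝ) ^ (1 / 2 : ℝ) < n := by
  have h1 : (1 : ℝ) < n := by exact_mod_cast (by omega : 1 < n)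
  calc (n : ℝ) ^ (1 / 2 : ℝ) < (n : ℝ) ^ (1 : ℝ) := Real.rpow_lt_rpow_of_exponent_lt h1 (by norm_num)
    _ = n := Real.rpow_one _

lemma fq_us (m n j : ℕ) (hn : 2 ≤ n) (hm : 1 ≤ m) (hmn : m ≤ n) (hj : j < m)
    (hco : IsCoprime (m : ℤ) ((n : ℤ) - j)) (hodd : Odd ((m : ℤ) + n - j)) (U : ℝ) (hU : U < n) :
    US 3 2 (((n : ℤ) ^ 2 : ℤ) : ℝ) U (fl (m : ℤ) (-((n : ℤ) - j)) 0) := by
  have hn' : (2 : ℤ) ≤ n := by exact_mod_cast hn
  have hm' : (1 : ℤ) ≤ m := by exact_mod_cast hm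
  have hmn' : (m : ℤ) ≤ n := by exact_mod_cast hmn
  have hj' : (j : ℤ) < m := by exact_mod_cast hj
  have hj0 : (0 : ℤ) ≤ j := Int.natCast_nonneg j
  apply fl_us _ _ _ _ hm' hco.neg_right
  · have : (m : ℤ) * (0 + 1) + -((n : ℤ) - j) = (m + n - j) - 2 * (n - j) := by ring
    rw [this]
    exact hodd.sub_even (even_two_mul _)
  · nlinarith
  · rw [abs_neg, abs_of_nonneg (by linarith)]
    nlinarith
  · nlinarith
  · intro h1
    have hm1 : m = 1 := by exact_mod_cast h1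
    have hj1 : j = 0 := by omega
    subst hj1
    have : |((-((n : ℤ) - ((0 : ℕ) : ℤ)) + 0 : ℤ) : ℝ)| = n := by
      push_cast
      rw [sub_zero, add_zero, abs_neg, abs_of_nonneg (Nat.cast_nonneg n)]
    rw [this]
    exact hU

lemma fq_rep (m n j : ℕ) : Rep (fl (m : ℤ) (-((n : ℤ) - j)) 0) (fun l q => l ∣ q ∨
    (l : ℤ) ∣ (n : ℤ) - (j : ℤ) - (m : ℤ) * (q : ℤ) ∨ (l : ℤ) ∣ (q : ℤ) ^ 2 - 2) := by
  refine (fl_rep _ _ _).congr ?_
  intro l q
  have e1 : (m : ℤ) * (q : ℤ) + -((n : ℤ) - j) = -((n : ℤ) - j - m * q) := by ring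
  rw [e1, dvd_neg, sub_zero, Int.natCast_dvd_natCast]
  tauto

lemma fq_base (m n j q : ℕ) : (fl (m : ℤ) (-((n : ℤ) - j)) 0 1).eval (q : ℤ) = q := by
  rw [fl1, lf_eval]
  ring

lemma fp_us (n : ℕ) (hn : 2 ≤ n) (heven : Even n) (U : ℝ) (hU : U < n) :
    US 3 2 (((n : ℤ) ^ 3 : ℤ) : ℝ) U (fl 1 0 (n : ℤ)) := by
  have hn' : (2 : ℤ) ≤ n := by exact_mod_cast hn
  have h2 : (4 : ℤ) ≤ (n : ℤ) ^ 2 := by nlinarith
  have e : (n : ℤ) ^ 3 = n * (n : ℤ) ^ 2 := by ring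
  apply fl_us _ _ _ _ le_rfl isCoprime_one_left
  · have h3 : Even (n : ℤ) := by exact_mod_cast heven
    have : (1 : ℤ) * ((n : ℤ) + 1) + 0 = n + 1 := by ring
    rw [this]
    exact h3.add_one
  · rw [e]; nlinarith
  · rw [abs_zero]; positivity
  · rw [e]; nlinarith
  · intro _
    have : |((0 + (n : ℤ) : ℤ) : ℝ)| = n := by
      push_cast
      rw [zero_add, abs_of_nonneg (Nat.cast_nonneg n)]
    rw [this]
    exact hU

lemma fp_rep (n : ℕ) : Rep (fl 1 0 (n : ℤ)) (fun l p => l ∣ p ∨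
    (l : ℤ) ∣ (n : ℤ) - (p : ℤ) ∨ (l : ℤ) ∣ ((n : ℤ) - (p : ℤ)) ^ 2 - 2) := by
  refine (fl_rep _ _ _).congr ?_
  intro l p
  have e1 : (1 : ℤ) * (p : ℤ) + 0 = p := by ring
  have e2 : (p : ℤ) - n = -((n : ℤ) - p) := by ring
  rw [e1, e2, dvd_neg, neg_sq, Int.natCast_dvd_natCast]

lemma fp_base (n p : ℕ) : (fl 1 0 (n : ℤ) 0).eval (p : ℤ) = p := by
  rw [fl0, lf_eval]
  ring

/-! ## The polynomial `x ^ 2 - 2` at prime arguments -/

/-- the system -/
noncomputable def q2 : Fin 2 → ℤ[X] := ![X, quad 1 0 (-2)]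

lemma q2_rep : Rep q2 (fun l p => l ∣ p ∨ (l : ℤ) ∣ (p : ℤ) ^ 2 - 2) := by
  intro l p
  unfold Poly.Q q2
  rw [Fin.exists_fin_two]
  simp only [Matrix.cons_val_zero, Matrix.cons_val_one, quad_eval, eval_X]
  have e1 : (1 : ℤ) * p ^ 2 + 0 * p + -2 = p ^ 2 - 2 := by ring
  rw [e1, Int.natCast_dvd_natCast]

lemma q2_us (H : ℤ) (hH : 2 ≤ H) (U : ℝ) : US 2 2 (H : ℝ) U q2 where
  irr := fun i => by
    fin_cases i
    · exact irreducible_X
    · apply quad_irr _ _ _ one_ne_zero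
      · rintro p hp ⟨hd, -, -⟩
        exact hp.one_lt.ne' (Nat.dvd_one.1 (by exact_mod_cast hd))
      · rintro ⟨r, hr⟩
        exact sqrt_two r (by linarith)
  deg := fun i => by
    fin_cases i
    · show (X : ℤ[X]).natDegree ≠ 0
      rw [natDegree_X]; norm_num
    · show (quad 1 0 (-2)).natDegree ≠ 0
      rw [quad_deg _ _ _ one_ne_zero]; norm_num
  degD := fun i => by
    fin_cases i
    · show (X : ℤ[X]).natDegree ≤ 2
      rw [natDegree_X]; norm_num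
    · show (quad 1 0 (-2)).natDegree ≤ 2
      rw [quad_deg _ _ _ one_ne_zero]
  hgt := fun i n => by
    fin_cases i
    · show |(((X : ℤ[X]).coeff n : ℤ) : ℝ)| ≤ H
      have hH' : (2 : ℝ) ≤ H := by exact_mod_cast hH
      rw [coeff_X]
      split_ifs
      · push_cast; rw [abs_one]; linarith
      · push_cast; rw [abs_zero]; linarith
    · have h := quad_coeff 1 0 (-2) n H (by simpa using (by linarith : (1 : ℤ) ≤ H))
        (by simpa using (by linarith : (0 : ℤ) ≤ H)) (by simpa using hH)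
      exact_mod_cast h
  adm := fun p hp => by
    have hpp : Prime (p : ℤ) := Nat.prime_iff_prime_int.1 hp
    have f : ¬ (p : ℤ) ∣ 1 := fun h => hpp.not_isUnit (isUnit_of_dvd_one h)
    refine ⟨1, fun i => ?_⟩
    fin_cases i
    · show ¬ (p : ℤ) ∣ (X : ℤ[X]).eval ((1 : ℕ) : ℤ)
      rw [eval_X]
      exact_mod_cast f
    · show ¬ (p : ℤ) ∣ (quad 1 0 (-2)).eval ((1 : ℕ) : ℤ)
      rw [quad_eval]
      intro h
      apply f
      have : (1 : ℤ) * ((1 : ℕ) : ℤ) ^ 2 + 0 * ((1 : ℕ) : ℤ) + -2 = -1 := by norm_num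
      rw [this] at h
      exact (dvd_neg).1 h
  tr := fun i j t ht htU ha => by
    have ht1 : (1 : ℤ) ≤ t := by exact_mod_cast ht
    rcases assoc_eval ha with h | h
    · have h0 := h 0
      have h1 := h 1
      have h2 := h (-1)
      fin_cases i <;> fin_cases j <;>
      · simp only [q2, Fin.zero_eta, Fin.mk_one, Matrix.cons_val_zero, Matrix.cons_val_one, quad_eval, quad_shift,
          eval_X, X_comp, eval_add, eval_C] at h0 h1 h2
        nlinarith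
    · have h0 := h 0
      have h1 := h 1
      have h2 := h (-1)
      fin_cases i <;> fin_cases j <;>
      · simp only [q2, Fin.zero_eta, Fin.mk_one, Matrix.cons_val_zero, Matrix.cons_val_one, quad_eval, quad_shift,
          eval_X, X_comp, eval_add, eval_C] at h0 h1 h2
        nlinarith

lemma q2_noAs (U : ℝ) : NoAs q2 ∅ U := by
  intro i j t ht htU _
  exact (q2_us 2 le_rfl U).tr i j t ht htU

lemma q2_base (p : ℕ) : (q2 0).eval (p : ℤ) = p := by
  show (X : ℤ[X]).eval (p : ℤ) = p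
  rw [eval_X]

end Pool.Agent.R518.G
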